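import Pool.Agent.Lib.MP_64d474_lc.FR.FX68
import Pool.Agent.Lib.MP_64d474_lc.DH.Size69

/-!
# A class closed under compositions, local sums of fractions and determinants of bounded depth

`Composed k P G`: the members of `G` are polynomials in `T_1, …, T_m`, where the `T_j` are products
of any number of members of `P`, at most `k` of them algebraically independent; the degrees of the
`T_j` are not restricted.

`FractionSum k P z`: `z` is a sum of any number of fractions `u / v`, where `u` and `v` are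
`Composed k P` together, each variable occurring in at most `k` of the fractions.

`Mixed k P f`: `w f = Q (z_1, …, z_k)` for sums of fractions `z_j`, a polynomial `Q` of degree at
most `k` in each `z_j` and `w ≠ 0`, where `w` and the coefficients of `Q` are `Composed k P`
together.

`Depth d A t I J`: the rectangle of the matrix `A` with the rows in `I` and the columns in `J` has
depth `t`.  Depth `0`: there are no rows or no columns.  Depth `t + 1`: after deletion of at most
`d` rows and at most `d` columns it is block diagonal, and all blocks have depth `t`.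

`Member k P f`: `f` is `Mixed k P`, or `f = det B` for a matrix `B` of depth `k` (with `d = k`) with
entries in `P`, each variable occurring in at most `k` entries.

`Level F n s k e 0` is the class of all polynomials in `n` variables over `F` with at most `s`
monomials and degree at most `e` in each variable.  `Level F n s k e (t + 1)` is the class of all
polynomials of degree at most `e` in each variable that are `Member k (Level F n s k e t)`.

`tests n R S N` is an explicit finite set of points of `ℤ ^ n`, independent of the field and of the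
polynomials, with at most `(N (S - 1) + 1) ((N (n - 1) + 1) (N + 1)) ^ R` members, and with
coordinates of absolute value at most `(2 ^ (n + 1) (N + 1) S) ^ S + R (n (N + 1)) ^ n`.

If `det A`, of degree at most `N`, divides a product of any number of nonzero polynomials with
`Member k (Level F n s k e t)`, then `A (h)` is nonsingular for some `h` in
`tests n R ((c s) ^ c) N`, where `R` and `c` depend only on `k`, `e`, `t`.
-/

set_option autoImplicit false

open MvPolynomial

namespace Pool.Agent.Results.MP_64d474_lc.ConstantDepth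

/-- The members of `G` are polynomials in `T_1, …, T_m`, the `T_j` products of members of `P`, at
most `k` of them algebraically independent. -/
def Composed {F : Type*} [Field F] {n : ℕ} (k : ℕ) (P : MvPolynomial (Fin n) F → Prop)
    (G : Set (MvPolynomial (Fin n) F)) : Prop :=
  ∃ (m : ℕ) (T : Fin m → MvPolynomial (Fin n) F),
    (∀ j, ∃ M : Multiset (MvPolynomial (Fin n) F), (∀ p ∈ M, P p) ∧ T j = M.prod) ∧
    (∀ J : Finset (Fin m), AlgebraicIndependent F (fun j : J => T j) → J.card ≤ k) ∧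
    G ⊆ (Algebra.adjoin F (Set.range T) : Set (MvPolynomial (Fin n) F))

/-- A sum of any number of fractions `u a / v a`, `u a` and `v a` composed over `P`, each variable
in at most `k` of the fractions. -/
def FractionSum {F : Type*} [Field F] {n : ℕ} (k : ℕ) (P : MvPolynomial (Fin n) F → Prop)
    (z : FractionRing (MvPolynomial (Fin n) F)) : Prop :=
  ∃ (m : ℕ) (u v : Fin m → MvPolynomial (Fin n) F),
    (∀ a, v a ≠ 0 ∧ Composed k P {u a, v a}) ∧
    (∀ i : Fin n, (Finset.univ.filter fun a =>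
      (u a).degreeOf i ≠ 0 ∨ (v a).degreeOf i ≠ 0).card ≤ k) ∧
    z = ∑ a, algebraMap _ (FractionRing (MvPolynomial (Fin n) F)) (u a) / algebraMap _ _ (v a)

/-- `w f = Q (z_1, …, z_k)`, `w ≠ 0`, the `z_j` sums of fractions, `Q` of degree at most `k` in each
`z_j`, `w` and the coefficients of `Q` composed over `P`. -/
def Mixed {F : Type*} [Field F] {n : ℕ} (k : ℕ) (P : MvPolynomial (Fin n) F → Prop)
    (f : MvPolynomial (Fin n) F) : Prop :=
  ∃ (z : Fin k → FractionRing (MvPolynomial (Fin n) F))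
    (Q : MvPolynomial (Fin k) (MvPolynomial (Fin n) F)) (w : MvPolynomial (Fin n) F),
    w ≠ 0 ∧ (∀ j, FractionSum k P (z j)) ∧ (∀ j, Q.degreeOf j ≤ k) ∧
    Composed k P (insert w {g | ∃ μ, g = coeff μ Q}) ∧
    algebraMap _ (FractionRing (MvPolynomial (Fin n) F)) w * algebraMap _ _ f =
      eval₂ (algebraMap _ _) z Q

/-- The depth of the rectangle `I × J` of `A`: after deletion of at most `d` rows and at most `d`
columns it is block diagonal (the blocks are the equal values of `a` and `b`), and the blocks are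
again of this kind, `t` times. -/
def Depth {F : Type*} [Field F] {n l : ℕ} (d : ℕ)
    (A : Matrix (Fin l) (Fin l) (MvPolynomial (Fin n) F)) :
    ℕ → Finset (Fin l) → Finset (Fin l) → Prop
  | 0, I, J => I = ∅ ∨ J = ∅
  | t + 1, I, J => ∃ (I' J' : Finset (Fin l)) (a b : Fin l → ℕ), I' ⊆ I ∧ J' ⊆ J ∧
      (I \ I').card ≤ d ∧ (J \ J').card ≤ d ∧ (∀ i ∈ I', ∀ j ∈ J', a i ≠ b j → A i j = 0) ∧
      ∀ x, Depth d A t (I'.filter fun i => a i = x) (J'.filter fun j => b j = x)

/-- `f` is mixed over `P`, or the determinant of a matrix of depth `k` with entries in `P`, each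
variable in at most `k` entries. -/
def Member {F : Type*} [Field F] {n : ℕ} (k : ℕ) (P : MvPolynomial (Fin n) F → Prop)
    (f : MvPolynomial (Fin n) F) : Prop :=
  Mixed k P f ∨
    ∃ (l : ℕ) (B : Matrix (Fin l) (Fin l) (MvPolynomial (Fin n) F)),
      (∀ i j, P (B i j)) ∧
      (∀ x, (Finset.univ.filter fun p : Fin l × Fin l =>
        (B p.1 p.2).degreeOf x ≠ 0).card ≤ k) ∧
      Depth k B k Finset.univ Finset.univ ∧ f = B.det

/-- The levels. -/
def Level (F : Type*) [Field F] (n s k e : ℕ) : ℕ → MvPolynomial (Fin n) F → Prop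
  | 0, f => f.support.card ≤ s ∧ ∀ i, f.degreeOf i ≤ e
  | t + 1, f => Member k (Level F n s k e t) f ∧ ∀ i, f.degreeOf i ≤ e

/-- The point with the parameters `x` and `a j`, `w j`, `j < R`. -/
noncomputable def point (n S : ℕ) {R : ℕ} (x : ℕ) (a w : Fin R → ℕ) (i : Fin n) : ℤ :=
  ∑ j ∈ Finset.range S, ((-1) ^ (S - 1 - j) * (S - 1).choose j * Nat.nth Nat.Prime i ^ j) *
      ∏ l ∈ (Finset.range S).erase j, (x - l : ℤ) +
    ∑ j, w j * ∏ l ∈ Finset.univ.erase i, (a j - (l : ℕ) : ℤ)

/-- The test points. -/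
noncomputable def tests (n R S N : ℕ) : Finset (Fin n → ℤ) :=
  Finset.univ.image fun q : Fin (N * (S - 1) + 1) × (Fin R → Fin (N * (n - 1) + 1)) ×
      (Fin R → Fin (N + 1)) =>
    point n S q.1 (fun j => q.2.1 j) fun j => q.2.2 j

theorem card_tests (n R S N : ℕ) :
    (tests n R S N).card ≤ (N * (S - 1) + 1) * ((N * (n - 1) + 1) * (N + 1)) ^ R := by
  refine Finset.card_image_le.trans (le_of_eq ?_)
  simp only [Finset.card_univ, Fintype.card_prod, Fintype.card_fin, Fintype.card_fun, mul_pow]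

theorem mem_tests {n R S N x : ℕ} {a w : Fin R → ℕ} (hx : x ≤ N * (S - 1))
    (ha : ∀ j, a j ≤ N * (n - 1)) (hw : ∀ j, w j ≤ N) : point n S x a w ∈ tests n R S N :=
  Finset.mem_image.2 ⟨(⟨x, Nat.lt_succ_of_le hx⟩, fun j => ⟨a j, Nat.lt_succ_of_le (ha j)⟩,
    fun j => ⟨w j, Nat.lt_succ_of_le (hw j)⟩), Finset.mem_univ _, rfl⟩

theorem locK_of {F : Type*} [Field F] {n k e : ℕ} {P P' : MvPolynomial (Fin n) F → Prop}
    (hP : ∀ p, P p → P' p) {z : FractionRing (MvPolynomial (Fin n) F)}
    (h : FractionSum k P z) : FR.LocK 1 k e P' z := by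
  classical
  obtain ⟨m, u, v, h1, h2, h3⟩ := h
  refine ⟨m, u, v, fun a => ⟨(h1 a).1, ?_⟩, fun J hJ => ?_, fun h => absurd h (lt_irrefl 1), h3⟩
  · obtain ⟨m', T, h4, h5, h6⟩ := (h1 a).2
    exact ⟨m', T, fun j => by
      obtain ⟨M, hM, hT⟩ := h4 j
      exact ⟨M, fun p hp => hP p (hM p hp), hT⟩, h5, h6⟩
  · obtain ⟨i, rfl⟩ := Finset.card_eq_one.1 hJ
    refine le_trans (Finset.card_le_card fun a ha => ?_) (h2 i)
    rw [Finset.mem_filter] at ha ⊢
    exact ⟨ha.1, ha.2 i (Finset.mem_singleton_self i)⟩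

theorem mixK_of {F : Type*} [Field F] {n k e : ℕ} {P P' : MvPolynomial (Fin n) F → Prop}
    (hP : ∀ p, P p → P' p) {f : MvPolynomial (Fin n) F} (h : Mixed k P f) :
    FR.MixK 1 k e P' f := by
  obtain ⟨z, Q, w, h0, h1, h2, ⟨m, T, h3, h4, h5⟩, h6⟩ := h
  exact ⟨z, Q, w, h0, fun j => locK_of hP (h1 j), h2, ⟨m, T, fun j => by
    obtain ⟨M, hM, hT⟩ := h3 j
    exact ⟨M, fun p hp => hP p (hM p hp), hT⟩, h4, h5⟩, h6⟩

theorem deep_of_depth {F : Type*} [Field F] {n l d : ℕ}
    {A : Matrix (Fin l) (Fin l) (MvPolynomial (Fin n) F)} (t : ℕ) :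
    ∀ {I J : Finset (Fin l)}, Depth d A t I J → FR.Deep d A t I J := by
  induction t with
  | zero => intro I J h; exact h
  | succ t ih =>
    rintro I J ⟨I', J', a, b, h1, h2, h3, h4, h5, h6⟩
    exact ⟨I', J', a, b, h1, h2, h3, h4, h5, fun x => ih (h6 x)⟩

theorem member_of {F : Type*} [Field F] {n k e : ℕ} {P P' : MvPolynomial (Fin n) F → Prop}
    (hP : ∀ p, P p → P' p) {f : MvPolynomial (Fin n) F} (h : Member k P f) :
    FR.MemK k e P' f := by
  rcases h with h | ⟨l, B, h1, h2, h3, rfl⟩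
  · exact Or.inl (mixK_of hP h)
  · exact Or.inr ⟨l, B, fun i j => hP _ (h1 i j), h2, deep_of_depth k h3, rfl⟩

theorem clev_of_level {F : Type*} [Field F] {n s k e : ℕ} (t : ℕ) :
    ∀ {f : MvPolynomial (Fin n) F}, Level F n s k e t f → FR.CLev s k e t f := by
  induction t with
  | zero => intro f h; exact h
  | succ t ih => intro f h; exact ⟨member_of (fun p hp => ih hp) h.1, h.2⟩

theorem cast_point {F : Type*} [Field F] (n S : ℕ) {R : ℕ} (x : ℕ) (a w : Fin R → ℕ) (i : Fin n) :
    ((point n S x a w i : ℤ) : F) = DH.B.bpt n S (x : F) (fun j => (a j : F))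
      (fun j => (w j : F)) i := by
  simp [point, DH.B.bpt, SP.btPt, Pool.Agent.Lib.MP_64d474_lc.S3.pt]

theorem det_ne {F : Type*} [Field F] {m l : ℕ}
    {A : Matrix (Fin l) (Fin l) (MvPolynomial (Fin m) F)} {x : Fin m → F}
    (h : eval x A.det ≠ 0) : (A.map (eval x)).det ≠ 0 := by
  rwa [RingHom.map_det] at h

theorem size_tests (n R S N : ℕ) : ∀ h ∈ tests n R S N, ∀ i,
    |h i| ≤ ((2 ^ (n + 1) * (N + 1) * S) ^ S + R * (n * (N + 1)) ^ n : ℕ) := by
  intro h hh i
  obtain ⟨q, -, rfl⟩ := Finset.mem_image.1 hh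
  have h1 := DH.Size69.curve_le (S := S) (N := N)
    ((Nat.le_of_lt_succ q.1.2).trans (Nat.mul_le_mul_left N (Nat.sub_le S 1))) i
  have h2 := DH.Size69.seeds_le (n := n) (N := N)
    (fun j => (Nat.le_of_lt_succ (q.2.1 j).2).trans
      ((Nat.mul_le_mul_left N (Nat.sub_le n 1)).trans (Nat.mul_comm N n).le))
    (fun j => Nat.le_of_lt_succ (q.2.2 j).2) i
  refine (abs_add_le _ _).trans ?_
  rw [Nat.cast_add, Nat.cast_pow]
  exact add_le_add h1 h2

/-- Divisors of products. -/
theorem aeval_ne {F : Type*} [Field F] {σ τ : Type*} (φ : MvPolynomial σ F →ₐ[F] MvPolynomial τ F)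
    (M : Multiset (MvPolynomial σ F)) (hM : ∀ f ∈ M, φ f ≠ 0) {g : MvPolynomial σ F}
    (hg : g ∣ M.prod) : φ g ≠ 0 := by
  obtain ⟨v, hv⟩ := hg
  intro h0
  have h1 : φ M.prod = 0 := by rw [hv, map_mul, h0, zero_mul]
  rw [map_multiset_prod, Multiset.prod_eq_zero_iff] at h1
  obtain ⟨f, hf, hf0⟩ := Multiset.mem_map.1 h1
  exact hM f hf hf0

theorem result.{u} :
    (∀ n R S N : ℕ,
      (tests n R S N).card ≤ (N * (S - 1) + 1) * ((N * (n - 1) + 1) * (N + 1)) ^ R ∧
      ∀ h ∈ tests n R S N, ∀ i,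
        |h i| ≤ ((2 ^ (n + 1) * (N + 1) * S) ^ S + R * (n * (N + 1)) ^ n : ℕ)) ∧
    ∀ t k e : ℕ, 0 < e → ∃ R c : ℕ, ∀ (F : Type u) [Field F] [CharZero F] (n s N l : ℕ)
      (M : Multiset (MvPolynomial (Fin n) F))
      (A : Matrix (Fin l) (Fin l) (MvPolynomial (Fin n) F)), 0 < s →
      (∀ f ∈ M, f ≠ 0 ∧ Member k (Level F n s k e t) f) → A.det ∣ M.prod →
      A.det.totalDegree ≤ N →
        ∃ h ∈ tests n R ((c * s) ^ c) N, (A.map (eval fun i => (h i : F))).det ≠ 0 := by
  refine ⟨fun n R S N => ⟨card_tests n R S N, size_tests n R S N⟩, fun t k e he => ?_⟩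
  obtain ⟨R, c, H⟩ := FB.hit_class.{u} t k e he
  refine ⟨R, c, fun F _ _ n s N l M A hs hM hA hN => ?_⟩
  have h1 : aeval (DH.B.bX F n ((c * s) ^ c) R) A.det ≠ 0 :=
    aeval_ne _ M (fun f hf => H F n s _ hs le_rfl f (hM f hf).1
      (member_of (fun p hp => clev_of_level t hp) (hM f hf).2)) hA
  obtain ⟨x, a, w, hx, ha, hw, h⟩ := DH.B.grid A.det hN h1
  refine ⟨_, mem_tests hx ha hw, det_ne ?_⟩
  simp only [cast_point]
  exact h

end Pool.Agent.Results.MP_64d474_lc.ConstantDepth
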