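import Pool.Agent.Lib.MP_64d474_lc.BX.Main99
import Pool.Agent.Lib.MP_64d474_lc.MG.Card99
import Pool.Agent.Lib.MP_64d474_lc.Kal.MainR
import Pool.Agent.Lib.MP_64d474_lc.Kal.Vander
import Pool.Agent.Lib.MP_64d474_lc.Kal.StepN
import Pool.Agent.Lib.MP_64d474_lc.Kal.Region
import Pool.Agent.Lib.MP_64d474_lc.Kal.Base
import Pool.Agent.Lib.MP_64d474_lc.Kal.CheapK
import Pool.Agent.Lib.MP_64d474_lc.Kal.StepP
import Pool.Agent.Lib.MP_64d474_lc.Kal.Single
import Pool.Agent.Lib.MP_64d474_lc.Kal.Hybrid
import Pool.Agent.Lib.MP_64d474_lc.Kal.Bal
import Pool.Agent.Lib.MP_64d474_lc.Kal.Tree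
import Pool.Agent.Lib.MP_64d474_lc.Kal.Grid
import Pool.Agent.Lib.MP_64d474_lc.Kal.Det
import Pool.Agent.Lib.MP_64d474_lc.Kal.Card

/-!
# An explicit set of subexponential size for block matrices of small branch width with formulas

The explicit finite set `matrixTests m k e s g` of integer vectors has
`2 ^ O(k (s ^ (1 / 2) + k) log (m k e s g))` elements.

A formula over the `v × v` matrices has constant matrices and matrices `p (x_k)` of polynomials of
degree at most `e` in one variable as leaves, and gates for addition, multiplication and inversion.
Consider a matrix of `v × v` blocks.  The blocks at the leaves of a binary tree of positions are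
formulas of this kind, with at most `s` leaves `p (x_k)` and at most `g` inversions together, and
the other blocks are zero.  For every inner node of the tree at most `w` block rows and at most `w`
block columns have leaves of the tree both below the node and not below it.  If the matrix is
defined at some point `x`, then it is defined at a point of `matrixTests m (v * w) e s g` with a
value of at least the same rank.

For one block and `v = 1` these are the arithmetic formulas, and a product of `s` leaves is an
oblivious branching program of width `v`.  For `v = 1` and affine forms as blocks these are the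
symbolic matrices of branch width `w` with `s` occurrences of variables.

The variables are divided into classes of consecutive variables with about `R` occurrences.  All
classes use the same `N` sources `z`, and every class has one parameter `y` of its own.  As a
function of the variables of one class the value depends, up to a factor, on few parameters.  So
in a space of directions of the sources of small codimension it does not change, and in the
remaining directions the values of the variables of the class are free.
-/

set_option autoImplicit false

open Finset MvPolynomial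

namespace Pool.Agent.Results.MP_64d474_lc.FormulaTestSet

open Pool.Agent.Lib.MP_64d474_lc Pool.Agent.Lib.MP_64d474_lc.Kal
open Pool.Agent.Lib.MP_64d474_lc.MG Pool.Agent.Lib.MP_64d474_lc.BX

theorem result.{u} (m v w e s g : ℕ) (hv : 1 ≤ v) (hw : 1 ≤ w) :
    (matrixTests m (v * w) e s g).card ≤
        ((m + 1) ^ 2 * (s * (v * w) * e * (g + 1) + 2) ^ 26) ^ (v * w * (Nat.sqrt s + v * w)) ∧
      ∀ (F : Type u) [Field F] [CharZero F] (a b : ℕ) (φ : Fin a × Fin b → MFm F v m)
        (t : BT (Fin a × Fin b)), t.leaves.Nodup → Width w t [] →
        (∀ q ∈ t.leaves, (φ q).DegLe e) → ∑ q ∈ t.leaves.toFinset, (φ q).leaves ≤ s →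
        ∑ q ∈ t.leaves.toFinset, (φ q).invs ≤ g →
        ∀ (x : Fin m → F) (V : Matrix (Fin a × Fin v) (Fin b × Fin v) F), BX.Val x φ t V →
          ∃ h ∈ matrixTests m (v * w) e s g, ∃ U : Matrix (Fin a × Fin v) (Fin b × Fin v) F,
            BX.Val (fun k => (h k : F)) φ t U ∧ V.rank ≤ U.rank := by
  have hyb : StHybrid.{u} :=
    stHybrid (stStepP (stStepN stVander.{u}) (stCheapK stRegion.{u} stBase.{u})) stSingle.{u}
  have hT : StMainTree.{u} := stMainTree hyb stTree.{u}
  have hvw : 1 ≤ v * w := Nat.mul_pos hv hw
  refine ⟨card_matrixTests99 stCard m (v * w) e s g hvw, ?_⟩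
  intro F _ _ a b φ t hnd hW hde hs hg x V hV
  refine mainBX hT stBal stGrid stBoth stDet stNetB F a b v m e w φ t s g
    (Nat.sqrt s / (v * w) + 1) _ _ _ hv hw hnd hW hde hs hg (Nat.succ_le_succ (Nat.zero_le _))
    (num1_99 s (v * w) hvw) (num2_99 s (v * w)) ?_ x V hV
  exact Nat.mul_le_mul_right _ (Nat.mul_le_mul_right _
    (Nat.mul_le_mul_left _ (Nat.le_mul_of_pos_right v hw)))

end Pool.Agent.Results.MP_64d474_lc.FormulaTestSet
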