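import Pool.Agent.Lib.MP_64d474_lc.GF.Div66

/-!
# Black-box tests for sums of arbitrarily many fractions of low degree, and for matrices all of
whose nonzero terms map all but a few small blocks to themselves

The grid `S3.grid m n s` consists of the integer points `∑ i, z i * ∏ (j ≠ k), (y i - j)`
(coordinate number `k`), `0 ≤ z i ≤ n`, `0 ≤ y i ≤ n (m - 1)`, `i < s`.  It tests all polynomials
`h` of degree at most `n` that divide a product of any number of nonzero polynomials, each of which
is a polynomial in `f_1, ..., f_p`, at most `r` of which are algebraically independent, every `f_a`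
being the product of any number of polynomials of degree at most `d` with a sum of any number of
fractions whose numerators and denominators have degree at most `t`, or the determinant of a matrix
all of whose nonzero terms map all but a few small blocks to themselves; the number `s` of seeds
depends on `d`, `t`, `r` only.

The iterated residues of a sum of fractions of degree at most `t` along `t + 1` different
directions vanish, whatever the number of the summands is.
-/

set_option autoImplicit false

open Finset MvPolynomial

namespace Pool.Agent.Results.MP_64d474_lc.LowDegreeFractions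

open Pool.Agent.Lib.MP_64d474_lc

theorem result.{u} (d t r m n s : ℕ)
    (hs : s = d + (2 * (r * (2 * t + d)) + 2) ^ 4 ^ (r * (2 * t + d)) + r * (2 * t + d) + r) :
    (S3.grid m n s).card ≤ ((n * (m - 1) + 1) * (n + 1)) ^ s ∧
      (∀ x ∈ S3.grid m n s, ∀ k, |x k| ≤ (s * n * ((n + 1) * m) ^ m : ℕ)) ∧
      ∀ (F : Type u) [Field F] [CharZero F] (M : Multiset (MvPolynomial (Fin m) F)),
        (∀ g ∈ M, g ≠ 0 ∧ GF.Combined d t r g) →
        ∀ h : MvPolynomial (Fin m) F, h ∣ M.prod → h.totalDegree ≤ n →
          ∃ x ∈ S3.grid m n s, eval (fun i => ((x i : ℤ) : F)) h ≠ 0 := by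
  subst hs
  exact ⟨S3.card_grid m n _, GF.size_grid m n _, fun F _ _ M hM h hh hn =>
    GF.hit_div d t r M hM hh hn⟩

end Pool.Agent.Results.MP_64d474_lc.LowDegreeFractions
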