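import Pool.Agent.Lib.MP_64d474_lc.ST4.Mach4
import Pool.Agent.Lib.MP_64d474_lc.ST4.Pencil
import Pool.Agent.Lib.MP_64d474_lc.ST4.Common
import Pool.Agent.Lib.MP_64d474_lc.ST4.Iso
import Pool.Agent.Lib.MP_64d474_lc.ST4.Phi
import Pool.Agent.Lib.MP_64d474_lc.ST4.Ker2
import Pool.Agent.Lib.MP_64d474_lc.ST4.Blk4
import Pool.Agent.Lib.MP_64d474_lc.ST4.NF
import Pool.Agent.Lib.MP_64d474_lc.ST4.Top
import Pool.Agent.Lib.MP_64d474_lc.ST4.Line
import Pool.Agent.Lib.MP_64d474_lc.ST4.GenA
import Pool.Agent.Lib.MP_64d474_lc.ST4.Pen2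
import Pool.Agent.Lib.MP_64d474_lc.ST4.Deg
import Pool.Agent.Lib.MP_64d474_lc.ST4.Img
import Pool.Agent.Lib.MP_64d474_lc.ST4.LemK
import Pool.Agent.Lib.MP_64d474_lc.ST4.DimE
import Pool.Agent.Lib.MP_64d474_lc.ST4.Dense
import Pool.Agent.Lib.MP_64d474_lc.ST4.Cond
import Pool.Agent.Lib.MP_64d474_lc.ST4.KB
import Pool.Agent.Lib.MP_64d474_lc.ST4.EU
import Pool.Agent.Lib.MP_64d474_lc.ST4.HfM
import Pool.Agent.Lib.MP_64d474_lc.ST4.HfZ
import Pool.Agent.Lib.MP_64d474_lc.ST4.TabE
import Pool.Agent.Lib.MP_64d474_lc.ST4.Fv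
import Pool.Agent.Lib.MP_64d474_lc.ST4.Rel
import Pool.Agent.Lib.MP_64d474_lc.ST4.Gmul
import Pool.Agent.Lib.MP_64d474_lc.ST4.Bas
import Pool.Agent.Lib.MP_64d474_lc.ST4.Cf
import Pool.Agent.Lib.MP_64d474_lc.ST4.Cz
import Pool.Agent.Lib.MP_64d474_lc.ST4.GrkQ
import Pool.Agent.Lib.MP_64d474_lc.ST4.Cod
import Pool.Agent.Lib.MP_64d474_lc.ST4.Opt
import Pool.Agent.Lib.MP_64d474_lc.ST4.LOQ
import Pool.Agent.Lib.MP_64d474_lc.ST4.BdH
import Pool.Agent.Lib.MP_64d474_lc.ST4.Hit4
import Pool.Agent.Lib.MP_64d474_lc.ST4.Count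
import Pool.Agent.Lib.MP_64d474_lc.ST4.Half
import Pool.Agent.Lib.MP_64d474_lc.ST4.Bd4
import Pool.Agent.Lib.MP_64d474_lc.ST4.Num4
import Pool.Agent.Lib.MP_64d474_lc.ST4.Loop4
import Pool.Agent.Lib.MP_64d474_lc.ST4.PTCf
import Pool.Agent.Lib.MP_64d474_lc.ST4.PTGmul
import Pool.Agent.Lib.MP_64d474_lc.ST4.PTGrk
import Pool.Agent.Lib.MP_64d474_lc.ST4.PTOpt
import Pool.Agent.Lib.MP_64d474_lc.ST4.PTRel
import Pool.Agent.Lib.MP_64d474_lc.ST4.PTBas
import Pool.Agent.Lib.MP_64d474_lc.ST4.PTSmall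
import Pool.Agent.Lib.MP_64d474_lc.ST4.PTHit
import Pool.Agent.Lib.MP_64d474_lc.ST4.PTHalf
import Pool.Agent.Lib.MP_64d474_lc.ST4.PTCod
import Pool.Agent.Lib.MP_64d474_lc.ST4.PTPar4
import Pool.Agent.Lib.MP_64d474_lc.ST4.PTDec4
import Pool.Agent.Lib.MP_64d474_lc.ST3.Hit3
import Pool.Agent.Lib.MP_64d474_lc.ST3.Ker
import Pool.Agent.Lib.MP_64d474_lc.ST3.Aug
import Pool.Agent.Lib.MP_64d474_lc.ST3.Dual
import Pool.Agent.Lib.MP_64d474_lc.ST3.Grid
import Pool.Agent.Lib.MP_64d474_lc.ST3.BfsP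
import Pool.Agent.Lib.MP_64d474_lc.ST3.Blk
import Pool.Agent.Lib.MP_64d474_lc.ST3.Add
import Pool.Agent.Lib.MP_64d474_lc.ST3.Step
import Pool.Agent.Lib.MP_64d474_lc.ST3.One
import Pool.Agent.Lib.MP_64d474_lc.ST3.Mv
import Pool.Agent.Lib.MP_64d474_lc.ST3.Wm
import Pool.Agent.Lib.MP_64d474_lc.ST3.Mod3
import Pool.Agent.Lib.MP_64d474_lc.ST3.Ones
import Pool.Agent.Lib.MP_64d474_lc.ST3.Bound3
import Pool.Agent.Lib.MP_64d474_lc.ST3.Prime3
import Pool.Agent.Lib.MP_64d474_lc.ST3.Rl3
import Pool.Agent.Lib.MP_64d474_lc.ST3.Best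
import Pool.Agent.Lib.MP_64d474_lc.ST3.Sum3
import Pool.Agent.Lib.MP_64d474_lc.ST3.PTBfs
import Pool.Agent.Lib.MP_64d474_lc.ST3.PTAugP
import Pool.Agent.Lib.MP_64d474_lc.ST3.PTOne
import Pool.Agent.Lib.MP_64d474_lc.ST3.PTMatW
import Pool.Agent.Lib.MP_64d474_lc.ST3.PTOnes
import Pool.Agent.Lib.MP_64d474_lc.ST3.PTGoodW
import Pool.Agent.Lib.MP_64d474_lc.ST3.PTBest
import Pool.Agent.Lib.MP_64d474_lc.ST3.PTPar3
import Pool.Agent.Lib.MP_64d474_lc.ST2.Rk
import Pool.Agent.Lib.MP_64d474_lc.ST2.Mult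
import Pool.Agent.Lib.MP_64d474_lc.ST2.Rl
import Pool.Agent.Lib.MP_64d474_lc.ST2.PtsH
import Pool.Agent.Lib.MP_64d474_lc.ST2.Wick
import Pool.Agent.Lib.MP_64d474_lc.ST2.Tab
import Pool.Agent.Lib.MP_64d474_lc.ST2.BoundF
import Pool.Agent.Lib.MP_64d474_lc.ST2.PTRk
import Pool.Agent.Lib.MP_64d474_lc.ST2.PTMult
import Pool.Agent.Lib.MP_64d474_lc.ST2.PTRl
import Pool.Agent.Lib.MP_64d474_lc.ST2.PTHit
import Pool.Agent.Lib.MP_64d474_lc.ST2.PTFval
import Pool.Agent.Lib.MP_64d474_lc.ST2.PTGoodF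
import Pool.Agent.Lib.MP_64d474_lc.ST2.PTPar
import Pool.Agent.Lib.MP_64d474_lc.ST2.Nr
import Pool.Agent.Lib.MP_64d474_lc.ST.Parse
import Pool.Agent.Lib.MP_64d474_lc.ST.Raw
import Pool.Agent.Lib.MP_64d474_lc.ST.Sizes
import Pool.Agent.Lib.MP_64d474_lc.ST.Prime
import Pool.Agent.Lib.MP_64d474_lc.ST.IsPrime
import Pool.Agent.Lib.MP_64d474_lc.ST.Eval
import Pool.Agent.Lib.MP_64d474_lc.ST.Gen
import Pool.Agent.Lib.MP_64d474_lc.ST.Rank
import Pool.Agent.Lib.MP_64d474_lc.ST.Div
import Pool.Agent.Lib.MP_64d474_lc.ST.Zip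
import Pool.Agent.Lib.MP_64d474_lc.ST.PTParse
import Pool.Agent.Lib.MP_64d474_lc.ST.PTCode
import Pool.Agent.Lib.MP_64d474_lc.ST.PTWell
import Pool.Agent.Lib.MP_64d474_lc.ST.PTPrime
import Pool.Agent.Lib.MP_64d474_lc.ST.PTSide
import Pool.Agent.Lib.MP_64d474_lc.ST2.PTPow

/-!
# A deterministic Turing machine for symbolic determinant identity testing

The definitions of the statement are in `Pool/Agent/Lib/MP_64d474_lc/ST/Defs.lean` (the encoding
of symbolic matrices as words), `Pool/Agent/Lib/MP_64d474_lc/ST3/Defs3.lean` (the ranks of the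
coefficient matrices) and `Pool/Agent/Lib/MP_64d474_lc/ST4/Defs4.lean` (the dimension of their
span).

The machine (`ST4/Alg4.lean`) computes the ranks of the coefficient matrices, the codimension `k`
of their span `V`, and chooses the cheapest of three ways.

* If `16 k ≤ n ^ 2`: a local search finds a small integer matrix `G` with `h = 2 k / n + 1` rows
  such that no change of one entry enlarges the dimension of `G V`.  The space `E` of the vectors
  killed by all `M` in `V` with `G M = 0` has dimension less than `h` and contains all vectors `u`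
  with `dim V u < h`.  Let `E'` be the same space for the transposed matrices.  Then `V` contains a
  nonsingular matrix if and only if `V` contains a matrix injective on `E` and one whose transpose
  is injective on `E'`.  This is decided by the Fischer norm of determinants of size `dim E`,
  `∑ sgn σ sgn π sgn κ ∏ ⟨A (i, σ i), A (π i, κ i)⟩`, by a dynamic program over the triples of
  sets of indices, modulo all primes up to a polynomial bound.
* Otherwise the Fischer norm of the whole determinant.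
* If this is cheaper: it tries all values `0, ..., r` for the variables whose coefficient matrix
  has rank `r > R`, and explicit points for those with `2 ≤ r ≤ R`: they are divided into
  `O(R ^ 2)` blocks with ranks of sum `O(R)`; all blocks use the same `O(R ^ 2)` sources, every
  block has one parameter of its own.  For the variables with `r ≤ 1` it decides, modulo all primes
  up to a polynomial bound, by augmenting paths, whether they have values for which the matrix is
  nonsingular.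
-/

set_option autoImplicit false

namespace Pool.Agent.Results.MP_64d474_lc.SubexponentialTime

open Pool.Agent.Lib.MP_64d474_lc Pool.Agent.Lib.MP_64d474_lc.ST Pool.Agent.Lib.MP_64d474_lc.ST3
  Pool.Agent.Lib.MP_64d474_lc.ST4

open Classical in
/-- There are a constant `c` and a Turing machine that decides for every word `w` whether `w` is
the word of a square symbolic matrix `A` with nonzero determinant, within
`(L + 2) ^ c * min (2 ^ (c κ)) (P ^ c * (R + 1) ^ (c R ^ 2))` steps for all `κ` and all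
`R, P ≥ 1` such that, `n` being the number of rows of `A`, the span of the coefficient matrices of
`A` has dimension at least `n ^ 2 - κ n`, the ranks of the coefficient matrices that are at least
`2` and at most `R` have sum at most `R ^ 3`, and the product of the numbers `rank + 1` over the
ranks larger than `R` is at most `P`; here `L` is the length of `w`. -/
theorem result : ∃ (c : ℕ) (M : Turing.TM2ComputableAux Letter Bool),
    ∀ (w : List Letter) (κ R P : ℕ), 1 ≤ R → 1 ≤ P →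
      (∀ A : SMat, code A = w → A.length ^ 2 ≤ spanDim A + κ * A.length ∧
        lowRank A R ≤ R ^ 3 ∧ highProd A R ≤ P) →
      Nonempty (Turing.TM2OutputsInTime M.tm (w.map M.inputAlphabet.invFun)
        (some ([decide (∃ A : SMat, code A = w ∧ Nonsingular A)].map M.outputAlphabet.invFun))
        ((w.length + 2) ^ c *
          min (2 ^ (c * κ)) (P ^ c * (R + 1) ^ (c * R ^ 2)))) := by
  have hrl : ST2.StRl := ST2.stRl (ST2.stMult ST2.stRk)
  have hwell : StPTWell := stPTWell stPTParse stPTCode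
  have hpar2 : ST2.StPTPar := ST2.stPTPar (ST2.stPTRl (ST2.stPTMult (ST2.stPTRk stZip))) hwell
    stPTParse stPTSide stDiv
  have hpar : StPTPar3 := stPTPar3 hpar2 stPTBest stDiv
  have hone : StPTOne := stPTOne stZip (ST2.stPTRk stZip)
    (stPTAugP stZip (ST2.stPTRk stZip) stPTBfs)
  have hgoodW : StPTGoodW :=
    stPTGoodW hone (stPTMatW stDiv (ST2.stPTHit stDiv) stPTBest) stPTOnes stPTPrime
  have hgoodF : ST2.StPTGoodF := ST2.stPTGoodF ST2.stPTFval stPTPrime
  have hstep : StStep := stStep stKer stAug stDual stBfs (stBlk ST2.stRk) stAdd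
  -- the fourth machine: polynomial time
  have hgmul : StPTGmul := stPTGmul stDiv
  have hgrk : StPTGrk := stPTGrk stPTCf hgmul (ST2.stPTRk stZip) stPTPrime
  have hrel : StPTRel := stPTRel stZip
  have hbas : StPTBas := stPTBas stPTCf hgmul hrel stZip
  have hhit : StPTHit := stPTHit stPTCf hbas (stPTSmall ST2.stPTPow) ST2.stPTFval
  have hhalf : StPTHalf := stPTHalf hhit (stPTOpt hgrk stDiv) stPTPrime
  have hpar4 : StPTPar4 := stPTPar4 hpar (stPTCod hgrk stDiv) hwell stPTParse stDiv stPTBest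
  have hdec : StPTDec4 := stPTDec4 hwell stPTParse hgoodW hgoodF hpar hpar4 hhalf
  -- the fourth machine: correctness
  have hG : StGrkQ := stGrkQ stGmul stCf stCz ST2.stRk stPrime stIsPrime stSizes
  have hcod : StCod := stCod hG stCz
  have hloq : StLOQ := stLOQ stOpt hG
  have himg : StImg := stImg stPen2 stDeg
  have htop : StTop := stTop stPencil stCommon (stBlk4 stIso stPhi stKer2) stNF
  have hdense : StDense := stDense htop (stGenA stLine) (stLemK himg) (stDimE himg)
  have hh4 : StHit4 := stHit4 (stEU stKB) stHfM stHfZ (stFv stTabE) (stBas stRel stGmul) stCf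
    stCz stCond stBdH stSizes
  have hha : StHalf := stHalf hh4 stCount
  exact main4 stRaw hrl stRl3 stCz hcod ST2.stNr hdec
    (stLoop4 (stSum3 hrl) hpar4 stBest stMv) stBd4 (stNum4 stBest)
    (accept4_iff stParse stRaw stSizes stPrime stIsPrime (stOne hstep (stBlk ST2.stRk)) stOnes
      (stMod3 stWm) (stBound3 stMv) stPrime3 stBest stEval
      (stHit3 stGen stRank ST2.stPtsH stGrid stMv) hrl ST2.stWick ST2.stTab ST2.stBoundF
      ST2.stNr stMv stCz hcod hloq stOpt hha hdense)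

end Pool.Agent.Results.MP_64d474_lc.SubexponentialTime
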